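import Pool.Agent.Helper21.PV.St
import Pool.Agent.Helper28.RS.M_BAD

/-! # Project PV, module BD2: the bad random subsets -/

set_option autoImplicit false

namespace Pool.Agent.Helper21.PV

open Finset Filter Pool.Agent.Helper31.RS
open Pool.Agent.Helper21.PT hiding Host StLAW StLN1 StLN2 StLPR StLBD StLSM StLZT StHDN StHSB StEXN StCL2 StHCL StCB2 StPR2 StBD2

private theorem nb_union_BD2 {V : Type} [Fintype V] [DecidableEq V] (S F : Finset (Sym2 V))
    (U : Finset V) (v : V) :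
    ((nb (S ∪ F) U v).card : ℝ) ≤ ((nb S U v).card : ℝ) + ((nb F U v).card : ℝ) := by
  have h : nb (S ∪ F) U v ⊆ nb S U v ∪ nb F U v := by
    intro u hu
    unfold nb at hu ⊢
    rw [mem_union, mem_filter, mem_filter]
    rw [mem_filter, mem_union] at hu
    tauto
  have h2 := (card_le_card h).trans (card_union_le _ _)
  exact_mod_cast h2

private theorem hp_nonneg_BD2 (p : ℝ) (hp1 : p < 1) : 0 ≤ hp p := by
  unfold hp
  have h1 : 0 < 1 - p := by linarith
  have h2 := Real.one_sub_inv_le_log_of_pos h1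
  have h3 : (1 - p) * (1 - (1 - p)⁻¹) ≤ (1 - p) * Real.log (1 - p) :=
    mul_le_mul_of_nonneg_left h2 h1.le
  have h4 : (1 - p) * (1 - (1 - p)⁻¹) = -p := by
    field_simp
    ring
  linarith

private theorem Bs_le_Bq_BD2 (η DS DR p d : ℝ) (q : ℕ) (hη : 0 < η) (hd1 : 1 ≤ d)
    (hDS : 0 ≤ DS) (hp0 : 0 < p) (hp1 : p < 1) (hpDR : 0 ≤ p * DR) (hL : 0 < Real.log d)
    (h1 : (1 / 2 + η) * (d / Real.log d) ≤ q)
    (h2 : DS + hp p * DR + η * d ≤ q * Real.log d) :
    Bs η DS DR p d ≤ Bq η DS DR p d q := by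
  unfold Bs Bq
  apply Real.rpow_le_rpow_of_exponent_le hd1
  have hDR : 0 ≤ DR := by
    by_contra h
    push Not at h
    have := mul_neg_of_pos_of_neg hp0 h
    linarith
  have hX : 0 ≤ DS + hp p * DR := by
    have := mul_nonneg (hp_nonneg_BD2 p hp1) hDR
    linarith
  have h3 : (1 / 2 + η) * d ≤ q * Real.log d := by
    have h4 := mul_le_mul_of_nonneg_right h1 hL.le
    have h5 : (1 / 2 + η) * (d / Real.log d) * Real.log d = (1 / 2 + η) * d := by
      field_simp
    linarith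
  have h4 : 0 < max ((1 / 2 + η) * d) (DS + hp p * DR + η * d) :=
    lt_max_of_lt_left (by positivity)
  have h5 : (DS + hp p * DR) / (q * Real.log d) ≤
      (DS + hp p * DR) / max ((1 / 2 + η) * d) (DS + hp p * DR + η * d) :=
    div_le_div_of_nonneg_left hX h4 (max_le h3 h2)
  linarith

theorem hBD2 (hPR2 : StPR2) (hGED : StGED) (hGDU : StGDU) (hBPR : StBPR) (hHSH : StHSH) :
    StBD2 := by
  intro η γ hη hη4 hγ hγ1
  obtain ⟨ε, c₂, d₀, hε, hε4, hc₂, hP⟩ := hPR2 η γ hη hη4 hγ hγ1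
  have hc1 : 0 < c1 ε := by unfold c1; positivity
  set c : ℝ := min (min c₂ (c1 ε / 16)) (1 / 4) with hc
  have hc0 : 0 < c := by
    rw [hc]
    exact lt_min (lt_min hc₂ (by positivity)) (by norm_num)
  have hcc₂ : c ≤ c₂ := (min_le_left _ _).trans (min_le_left _ _)
  have hcc1 : c ≤ c1 ε / 16 := (min_le_left _ _).trans (min_le_right _ _)
  have hc4 : c ≤ 1 / 4 := min_le_right _ _
  obtain ⟨X₀, hX⟩ := Pool.Agent.Helper28.RS.numX 1 (1 / 4) (η ^ 3 / 4) d₀ (by norm_num)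
    (by norm_num) (by positivity)
  refine ⟨c, X₀, hc0, hc4, ?_⟩
  intro V _ _ S E DS DR p d hd hdX hloS hloE hplo hphi hdn hlog hS hE hSE hcod hdS hdE hEpos
  obtain ⟨hx2, hxd, hx3, hA, hB, hC⟩ := hX d hdX
  rw [Real.rpow_one] at hxd
  rw [one_mul] at hx3
  set n : ℝ := (Fintype.card V : ℝ) with hn
  set L : ℝ := Real.log d with hL
  have hd0 : 0 < d := by linarith
  have hd1 : 1 ≤ d := by linarith
  have hL0 : 0 < L := by linarith
  have hn0 : 0 < n := by linarith
  have hp0' : 0 < p := lt_of_lt_of_le (Real.rpow_pos_of_pos hd0 _) hplo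
  have hp0 : 0 ≤ p := hp0'.le
  have hp1 : p ≤ 1 := by linarith
  have hp1' : p < 1 := by linarith
  have hDS : 0 ≤ DS := le_trans (by positivity) hloS
  have hpDR : p * DR ≤ d := by linarith
  have hpDR0 : 0 ≤ p * DR := le_trans (by positivity) hloE
  obtain ⟨hPr01, hmono, hor, _, hUnion, _⟩ := hBPR (Sym2 V) p E hp0 hp1
  -- the bad events
  have hU := hGDU V E p DR η hp0 hp1 hE hη (by linarith) hdE
  have hy0 : 0 < n * d / (2 * L ^ 3) := by positivity
  have hEd := hGED (Sym2 V) E p (n * d / (2 * L ^ 3)) hp0 hp1 hy0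
  set s : Finset ℕ := (Finset.range (⌊3 * d / L⌋₊ + 1)).filter
    (fun q => (1 / 2 + η) * (d / L) ≤ q ∧ DS + hp p * DR + η * d ≤ q * L) with hs
  have hsc : (s.card : ℝ) ≤ d + 1 := by
    have h1 : s.card ≤ ⌊3 * d / L⌋₊ + 1 := by
      refine (Finset.card_filter_le _ _).trans ?_
      rw [Finset.card_range]
    have h2 : ((⌊3 * d / L⌋₊ : ℕ) : ℝ) ≤ 3 * d / L := Nat.floor_le (by positivity)
    have h3 : 3 * d / L ≤ d := by
      rw [div_le_iff₀ hL0]
      nlinarith
    have h4 : (s.card : ℝ) ≤ (⌊3 * d / L⌋₊ : ℝ) + 1 := by exact_mod_cast h1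
    linarith
  set A : ℕ → Finset (Sym2 V) → Prop := fun q F =>
    (Nat.card {y : V → Fin q // Proper (S ∪ F) univ y} : ℝ) <
      Real.exp (-(ne S E p / q) - 50 * Fintype.card V / Real.log d) *
        (q : ℝ) ^ Fintype.card V with hAdef
  have hAq : ∀ q ∈ s, Pr p E (A q) ≤ 2 * Real.exp (-d ^ (1 / 3 : ℝ)) := by
    intro q hq
    rw [hs, Finset.mem_filter, Finset.mem_range] at hq
    have hq1 : (q : ℝ) ≤ 3 * d / L := by
      have : q ≤ ⌊3 * d / L⌋₊ := by omega
      exact (Nat.le_floor_iff (by positivity)).mp this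
    have hcod' : Codeg (S ∪ E) (Bq η DS DR p d q) := fun v w hvw =>
      (hcod v w hvw).trans (Bs_le_Bq_BD2 η DS DR p d q hη hd1 hDS hp0' hp1'
        (le_trans (by positivity) hloE) hL0 hq.2.1 hq.2.2)
    refine hP V S E DS DR p d q ⟨hd, hxd, hloS, hloE, ?_, hphi, hdn, ?_, hq.2.1, hq.2.2, hq1⟩
      hS hE hSE hcod' hdS hdE hEpos
    · exact (Real.rpow_le_rpow_of_exponent_le hd1 (by linarith)).trans hplo
    · exact hlog.trans (Real.rpow_le_rpow_of_exponent_le hd1 hcc1)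
  have hCnt : Pr p E (fun F => ∃ q ∈ s, A q F) ≤
      (d + 1) * (2 * Real.exp (-d ^ (1 / 3 : ℝ))) := by
    refine (hUnion ℕ s A).trans ((Finset.sum_le_sum hAq).trans ?_)
    rw [Finset.sum_const, nsmul_eq_mul]
    exact mul_le_mul_of_nonneg_right hsc (by positivity)
  have hAll : Pr p E (fun F => ¬ Gd2 η S E DS DR p d F) ≤
      Pr p E (fun F => (∃ v, (1 + η) * (p * DR) < ((nb F univ v).card : ℝ)) ∨
        (((F.card : ℝ) < p * E.card - n * d / (2 * L ^ 3)) ∨ ∃ q ∈ s, A q F)) := by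
    apply hmono
    intro F _ hF
    by_contra hcon
    push Not at hcon
    obtain ⟨h1, h3, h4⟩ := hcon
    apply hF
    refine ⟨?_, ?_, ?_⟩
    · intro v
      have e1 := nb_union_BD2 S F univ v
      have e2 := h1 v
      have e3 := hdS v
      have e4 : (1 + η) * d = DS + (1 + η) * (p * DR) + η * DS := by rw [hd]; ring
      have e5 : 0 ≤ η * DS := by positivity
      linarith
    · unfold ne
      linarith
    · intro q hq1 hq2 hq3
      have hqs : q ∈ s := by
        rw [hs, Finset.mem_filter, Finset.mem_range]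
        exact ⟨Nat.lt_succ_of_le (Nat.le_floor hq3), hq1, hq2⟩
      have := h4 q hqs
      rw [hAdef] at this
      exact not_lt.mp this
  have hSum : Pr p E (fun F => ¬ Gd2 η S E DS DR p d F) ≤
      n * Real.exp (-η ^ 2 * (p * DR) / 4) +
        (p * E.card / (n * d / (2 * L ^ 3)) ^ 2 +
          (d + 1) * (2 * Real.exp (-d ^ (1 / 3 : ℝ)))) := by
    refine hAll.trans ((hor _ _).trans (add_le_add hU ?_))
    exact (hor _ _).trans (add_le_add hEd hCnt)
  -- numeric bounds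
  have t1 : n * Real.exp (-η ^ 2 * (p * DR) / 4) ≤ 1 / (3 * L) := by
    refine le_trans ?_ hA
    have hn2 : n ≤ Real.exp (d ^ (1 / 4 : ℝ)) := by
      rw [← Real.log_le_iff_le_exp hn0]
      exact hlog.trans (Real.rpow_le_rpow_of_exponent_le hd1 hc4)
    have hE1 : Real.exp (-η ^ 2 * (p * DR) / 4) ≤ Real.exp (-(η ^ 3 / 4 * d)) := by
      apply Real.exp_le_exp.mpr
      have : η ^ 2 * (η * d) ≤ η ^ 2 * (p * DR) := by gcongr
      nlinarith
    calc n * Real.exp (-η ^ 2 * (p * DR) / 4)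
        ≤ Real.exp (d ^ (1 / 4 : ℝ)) * Real.exp (-(η ^ 3 / 4 * d)) := by gcongr
      _ = 1 * Real.exp (d ^ (1 / 4 : ℝ) - η ^ 3 / 4 * d ^ (1 : ℝ)) := by
          rw [← Real.exp_add, Real.rpow_one, one_mul]; ring_nf
      _ ≤ 2 * d * Real.exp (d ^ (1 / 4 : ℝ) - η ^ 3 / 4 * d ^ (1 : ℝ)) := by
          gcongr
          linarith
  have t2 : p * E.card / (n * d / (2 * L ^ 3)) ^ 2 ≤ 1 / (3 * L) := by
    refine le_trans ?_ hB
    have hEle : (E.card : ℝ) ≤ n * DR / 2 := hHSH V E DR hE hdE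
    have h1 : p * E.card ≤ n * d / 2 := by
      calc p * E.card ≤ p * (n * DR / 2) := by gcongr
        _ = n * (p * DR) / 2 := by ring
        _ ≤ n * d / 2 := by gcongr
    have h2 : d ^ (2 * (1 : ℝ)) = d ^ 2 := by
      rw [mul_one]
      exact_mod_cast Real.rpow_natCast d 2
    rw [h2]
    calc p * E.card / (n * d / (2 * L ^ 3)) ^ 2
        ≤ (n * d / 2) / (n * d / (2 * L ^ 3)) ^ 2 := by gcongr
      _ = 2 * L ^ 6 / (n * d) := by
          field_simp
      _ ≤ 2 * L ^ 6 / d ^ 2 := by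
          apply div_le_div_of_nonneg_left (by positivity) (by positivity)
          rw [sq]
          gcongr
  have t3 : (d + 1) * (2 * Real.exp (-d ^ (1 / 3 : ℝ))) ≤ 1 / (3 * L) := by
    refine le_trans ?_ hC
    have hE0 := (Real.exp_pos (-(d ^ ((1 : ℝ) / 3)))).le
    calc (d + 1) * (2 * Real.exp (-d ^ (1 / 3 : ℝ)))
        = 2 * 1 * (d + 1) * Real.exp (-(d ^ ((1 : ℝ) / 3))) := by ring
      _ ≤ 2 * d * (d + 1) * Real.exp (-(d ^ ((1 : ℝ) / 3))) := by
          gcongr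
  refine hSum.trans ?_
  calc n * Real.exp (-η ^ 2 * (p * DR) / 4) +
        (p * E.card / (n * d / (2 * L ^ 3)) ^ 2 + (d + 1) * (2 * Real.exp (-d ^ (1 / 3 : ℝ))))
      ≤ 1 / (3 * L) + (1 / (3 * L) + 1 / (3 * L)) := by linarith
    _ = 1 / L := by
        field_simp
        norm_num

end Pool.Agent.Helper21.PV
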