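import Pool.Agent.Helper21.PV.St

/-! # Project PV, module CB2: a typical slot map is good with high probability -/

set_option autoImplicit false

namespace Pool.Agent.Helper21.PV

open Finset Filter Pool.Agent.Helper31.RS
open Pool.Agent.Helper21.PT hiding Host StLAW StLN1 StLN2 StLPR StLBD StLSM StLZT StHDN StHSB StEXN StCL2 StHCL StCB2 StPR2 StBD2

private theorem hered_mono_CB2 {V : Type} [DecidableEq V] (F : Finset (Sym2 V)) (U : Finset V)
    (m : ℕ) (δ δ' : ℝ) (h : δ ≤ δ') (hH : Hered F U m δ) : Hered F U m δ' := by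
  intro S hS
  obtain ⟨σ, Z, h1, h2, h3⟩ := hH S hS
  exact ⟨σ, Z, h1, h2.trans (mul_le_mul_of_nonneg_right h (Nat.cast_nonneg _)), h3⟩

private theorem nb_union_CB2 {V : Type} [Fintype V] [DecidableEq V] (S F : Finset (Sym2 V))
    (U : Finset V) (v : V) :
    ((nb (S ∪ F) U v).card : ℝ) ≤ ((nb S U v).card : ℝ) + ((nb F U v).card : ℝ) := by
  have h : nb (S ∪ F) U v ⊆ nb S U v ∪ nb F U v := by
    intro u hu
    unfold nb at hu ⊢
    rw [mem_union, mem_filter, mem_filter]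
    rw [mem_filter, mem_union] at hu
    tauto
  have h2 := (card_le_card h).trans (card_union_le _ _)
  exact_mod_cast h2

theorem hCB2 (hCL2 : StCL2) (hHCL : StHCL) (hDGR : StDGR) (hBPR : StBPR) (hNCE : StNCE) :
    StCB2 := by
  intro η γ hη hη4 hγ hγ1
  obtain ⟨c, hc, hK0⟩ := hCL2 (η / 4) γ (by positivity) (by linarith) hγ hγ1
  refine ⟨c / 4, by positivity, ?_⟩
  intro ε hε hεη hc1
  have hε4 : ε ≤ 1 / 4 := by linarith
  have hc1c : c1 ε ≤ c := by linarith
  have hc1p : 0 < c1 ε := by unfold c1; positivity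
  obtain ⟨m₀, hK⟩ := hK0 (c1 ε) hc1p hc1c
  obtain ⟨d₁, hd₁⟩ := hHCL ε η γ c hε hεη hη4 hγ hγ1 hc hc1c
  obtain ⟨d₂, hd₂⟩ := hNCE ε hε hε4
  obtain ⟨d₃, hd₃⟩ := ((tendsto_rpow_atTop (y := (1 / 2 : ℝ)) (by norm_num)).eventually_ge_atTop
    (m₀ : ℝ)).exists_forall_of_atTop
  refine ⟨max (max d₁ d₂) (max (max 3 d₃) (Real.exp 2)), ?_⟩
  intro V _ _ S E DS DR p d YS YE q r M pal _ x hr hM hpal hPar hPls hS hE hSE hcod hTS hTE
  subst hr hM hpal
  have hdd : max (max d₁ d₂) (max (max 3 d₃) (Real.exp 2)) ≤ d := hPar.hd0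
  have hdd₁ : d₁ ≤ d := (le_max_left _ _).trans ((le_max_left _ _).trans hdd)
  have hdd₂ : d₂ ≤ d := (le_max_right _ _).trans ((le_max_left _ _).trans hdd)
  have hd3 : 3 ≤ d := (le_max_left _ _).trans ((le_max_left _ _).trans
    ((le_max_right _ _).trans hdd))
  have hdd₃ : d₃ ≤ d := (le_max_right _ _).trans ((le_max_left _ _).trans
    ((le_max_right _ _).trans hdd))
  have hde : Real.exp 2 ≤ d := (le_max_right _ _).trans ((le_max_right _ _).trans hdd)
  have hd0 : 0 < d := by linarith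
  have hd1 : 1 ≤ d := by linarith
  have hL : 2 ≤ Real.log d := by
    rw [Real.le_log_iff_exp_le hd0]
    exact hde
  have hdn : d ≤ Fintype.card V := hPar.hn
  have hdL : 0 ≤ d / Real.log d := by positivity
  have hqlo : d / (2 * Real.log d) ≤ q := by
    refine le_trans ?_ hPar.q1
    have : d / (2 * Real.log d) = 1 / 2 * (d / Real.log d) := by
      field_simp
    rw [this]
    exact mul_le_mul_of_nonneg_right (by linarith) hdL
  have hqhi := hPar.qhi
  obtain ⟨n1, n2, n3, n4, n5, n6, n7, n8, n9⟩ := hd₂ d q (Fintype.card V) hdd₂ hqlo hqhi hPls hdn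
    hPar.hln
  have hn3 : 3 ≤ Fintype.card V := by
    have : (3 : ℝ) ≤ Fintype.card V := hd3.trans hdn
    exact_mod_cast this
  have hp0 : (0 : ℝ) ≤ p := le_trans (Real.rpow_nonneg hd0.le _) hPar.plo
  have hp1 : p ≤ 1 := by linarith [hPar.phi]
  have hDS : 0 ≤ DS := le_trans (by positivity) hPar.loS
  -- the parameters of the cells
  have hm : ∀ l ≤ lv ε d, d ^ (1 / 2 : ℝ) ≤ (pl ε d q l : ℝ) := by
    intro l hl
    refine le_trans ?_ (hPls.lo l hl)
    exact Real.rpow_le_rpow_of_exponent_le hd1 (by linarith)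
  have hm0 : ∀ l ≤ lv ε d, m₀ ≤ pl ε d q l := by
    intro l hl
    have h1 := (hd₃ d hdd₃).trans (hm l hl)
    exact_mod_cast h1
  have hpl : ∀ l, (0 : ℝ) < pl ε d q l := fun l => by exact_mod_cast hPls.pos l
  have hQ0 : (0 : ℝ) ≤ QQ ε d q := Nat.cast_nonneg _
  have hPar' : Par2 ε η γ (c / 4) d₁ DS DR p d q (Fintype.card V) :=
    { hd := hPar.hd, hd0 := hdd₁, loS := hPar.loS, loE := hPar.loE, plo := hPar.plo,
      phi := hPar.phi, hn := hPar.hn, hln := hPar.hln, q1 := hPar.q1, q2 := hPar.q2,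
      qhi := hPar.qhi }
  obtain ⟨-, bmono, -, -, bunion, -⟩ := hBPR (Sym2 V) p E hp0 hp1
  -- one block
  have hdeg2 : ∀ l, 2 * p * ((1 + ε / 100) * (DR * pl ε d q l / QQ ε d q)) +
      (1 + ε / 100) * (DS * pl ε d q l / QQ ε d q) ≤
      2 * ((1 + ε / 100) * (d * pl ε d q l / QQ ε d q)) := by
    intro l
    have h1 : 0 ≤ DS * pl ε d q l / QQ ε d q := by have := hpl l; positivity
    have h2 : d * pl ε d q l / QQ ε d q =
        DS * pl ε d q l / QQ ε d q + p * (DR * pl ε d q l / QQ ε d q) := by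
      have h3 : d * pl ε d q l = DS * pl ε d q l + p * (DR * pl ε d q l) := by
        have := hPar.hd
        rw [this]
        ring
      rw [h3]
      ring
    rw [h2]
    nlinarith
  have hblock : ∀ b : Blk (rr ε d) (lv ε d), Pr p E (fun F =>
      ¬ ((∀ v, ((nb (S ∪ F) (cel x b) v).card : ℝ) ≤ 5 * (d * pl ε d q b.2 / QQ ε d q)) ∧
        ((b.2 : ℕ) < lv ε d → Hered (S ∪ F) (cel x b) (pl ε d q b.2) (d ^ (-(c1 ε / 4))) ∧
          Hered (S ∪ F) (cel x b) (pl ε d q (b.2 + 1)) (d ^ (-(c1 ε / 4))) ∧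
          Fam (S ∪ F) (cel x b) (pl ε d q b.2) (11 * d ^ (-c1 ε) * (cel x b).card)
            (hy S E p (d ^ (-c1 ε)) x b)))) ≤ Real.exp (-d ^ (1 / 2 : ℝ)) := by
    intro b
    have hbM : (b.2 : ℕ) ≤ lv ε d := Nat.lt_succ_iff.1 b.2.2
    obtain ⟨m1, m2⟩ := n8 b.2 hbM ((cel x b).card : ℝ) (hTS.size b)
    have hx2 : Real.exp (2 * p * ((1 + ε / 100) * (DR * pl ε d q b.2 / QQ ε d q)) +
        (1 + ε / 100) * (DS * pl ε d q b.2 / QQ ε d q) -
        5 * (d * pl ε d q b.2 / QQ ε d q)) ≤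
        Real.exp (2 * ((1 + ε / 100) * (d * pl ε d q b.2 / QQ ε d q)) -
          5 * (d * pl ε d q b.2 / QQ ε d q)) :=
      Real.exp_le_exp.2 (by linarith [hdeg2 b.2])
    have hx3 := mul_le_mul_of_nonneg_left hx2 (Nat.cast_nonneg (Fintype.card V) : (0 : ℝ) ≤ _)
    by_cases hb : (b.2 : ℕ) < lv ε d
    · have hcel := hK V S E (cel x b) (tt ε d) (pl ε d q b.2) (pl ε d q (b.2 + 1))
        ((1 + ε / 100) * (DS * pl ε d q b.2 / QQ ε d q))
        ((1 + ε / 100) * (DR * pl ε d q b.2 / QQ ε d q)) p d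
        (5 * (d * pl ε d q b.2 / QQ ε d q))
        (2 * Real.log (Fintype.card V) / tt ε d) (hm0 b.2 hbM) (hm0 (b.2 + 1) hb)
        (hm b.2 hbM) (hPls.hi b.2) (hm (b.2 + 1) hb) (hPls.hi (b.2 + 1)) hd0 hS hE hp0 hp1
        (fun v => hTS.deg v b) (fun v => hTE.deg v b)
        (hd₁ V S E (cel x b) DS DR p d q b.2 b.2 hPar' hPls hS hE hSE hcod (Or.inl rfl) hbM
          (fun v => hTS.deg v b) (fun v => hTE.deg v b))
        (hd₁ V S E (cel x b) DS DR p d q b.2 (b.2 + 1) hPar' hPls hS hE hSE hcod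
          (Or.inr ⟨rfl, hb⟩) hbM (fun v => hTS.deg v b) (fun v => hTE.deg v b))
        hn3 n1 (n2 b.2 hbM) (n2 (b.2 + 1) hb) (by have := hpl b.2; positivity) rfl n3 n4 m1 n5 n6
      refine le_trans (bmono _ _ ?_) (hcel.trans ((add_le_add_left (add_le_add_left hx3 _) _).trans
        m2))
      intro F _ hF hG
      apply hF
      refine ⟨hG.1, fun _ => ⟨?_, ?_, ?_⟩⟩
      · exact hered_mono_CB2 _ _ _ _ _ (n7 b.2 hbM) hG.2.1
      · exact hered_mono_CB2 _ _ _ _ _ (n7 b.2 hbM) hG.2.2.1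
      · exact hG.2.2.2
    · have hdgr := hDGR V E (cel x b) p
        ((1 + ε / 100) * (DR * pl ε d q b.2 / QQ ε d q))
        (5 * (d * pl ε d q b.2 / QQ ε d q) - (1 + ε / 100) * (DS * pl ε d q b.2 / QQ ε d q))
        hp0 hp1 hE (fun v => hTE.deg v b)
      have h3 : (Fintype.card V : ℝ) *
          Real.exp (2 * p * ((1 + ε / 100) * (DR * pl ε d q b.2 / QQ ε d q)) -
            (5 * (d * pl ε d q b.2 / QQ ε d q) -
              (1 + ε / 100) * (DS * pl ε d q b.2 / QQ ε d q))) ≤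
            Real.exp (-d ^ (1 / 2 : ℝ)) := by
        refine le_trans ?_ m2
        have h4 := (Real.exp_pos (-(d ^ (-(3 * c1 ε)) * tt ε d) /
          (32 * Real.log (Fintype.card V)))).le
        have h5 := (Real.exp_pos (-d ^ (-(3 * c1 ε)) * ((cel x b).card : ℝ))).le
        have h6 : 2 * p * ((1 + ε / 100) * (DR * pl ε d q b.2 / QQ ε d q)) -
            (5 * (d * pl ε d q b.2 / QQ ε d q) -
              (1 + ε / 100) * (DS * pl ε d q b.2 / QQ ε d q)) =
            2 * p * ((1 + ε / 100) * (DR * pl ε d q b.2 / QQ ε d q)) +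
            (1 + ε / 100) * (DS * pl ε d q b.2 / QQ ε d q) -
            5 * (d * pl ε d q b.2 / QQ ε d q) := by ring
        rw [h6]
        linarith
      refine le_trans (bmono _ _ ?_) (hdgr.trans h3)
      intro F _ hF
      by_contra hG
      push Not at hG
      refine hF ⟨fun v => ?_, fun h => absurd h hb⟩
      have h7 := nb_union_CB2 S F (cel x b) v
      have h8 := hG v
      have h9 := hTS.deg v b
      linarith
  have hun := bunion (Blk (rr ε d) (lv ε d)) univ (fun b F =>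
      ¬ ((∀ v, ((nb (S ∪ F) (cel x b) v).card : ℝ) ≤ 5 * (d * pl ε d q b.2 / QQ ε d q)) ∧
        ((b.2 : ℕ) < lv ε d → Hered (S ∪ F) (cel x b) (pl ε d q b.2) (d ^ (-(c1 ε / 4))) ∧
          Hered (S ∪ F) (cel x b) (pl ε d q (b.2 + 1)) (d ^ (-(c1 ε / 4))) ∧
          Fam (S ∪ F) (cel x b) (pl ε d q b.2) (11 * d ^ (-c1 ε) * (cel x b).card)
            (hy S E p (d ^ (-c1 ε)) x b))))
  refine le_trans (bmono _ _ ?_) (hun.trans ?_)
  · intro F _ hF
    by_contra hG
    push Not at hG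
    apply hF
    refine ⟨fun v b => ?_, fun b hb => ?_, fun b hb => ?_⟩
    · exact (hG b (mem_univ _)).1 v
    · have := (hG b (mem_univ _)).2 hb
      exact ⟨this.1, this.2.1⟩
    · exact ((hG b (mem_univ _)).2 hb).2.2
  · refine (Finset.sum_le_sum fun b _ => hblock b).trans ?_
    rw [Finset.sum_const, nsmul_eq_mul]
    have hcard : ((univ : Finset (Blk (rr ε d) (lv ε d))).card : ℝ) =
        rr ε d * (lv ε d + 1) := by
      rw [Finset.card_univ, Fintype.card_prod, Fintype.card_fin, Fintype.card_fin]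
      push_cast
      ring
    rw [hcard]
    exact n9

end Pool.Agent.Helper21.PV
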