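import Pool.Agent.Helper21.PV.St

set_option autoImplicit false

namespace Pool.Agent.Helper21.PV

open Finset Pool.Agent.Helper31.RS
open Pool.Agent.Helper21.PT hiding Host StLAW StLN1 StLN2 StLPR StLBD StLSM StLZT StHDN StHSB StEXN StCL2 StHCL
  StCB2 StPR2 StBD2

private theorem mem_ins_HCL {V : Type} {E : Finset (Sym2 V)} {W : Finset V} {e : Sym2 V} :
    e ∈ ins E W ↔ e ∈ E ∧ ∀ v ∈ e, v ∈ W := by
  classical
  unfold ins
  exact mem_filter

private theorem inc_ins_HCL {V : Type} [DecidableEq V] {E : Finset (Sym2 V)} (hE : Loopless E)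
    (U : Finset V) (v : V) : (inc (ins E U) v).card ≤ (nb E U v).card := by
  have h1 : inc (ins E U) v ⊆ (nb E U v).image (fun u => s(v, u)) := by
    intro e he
    unfold inc at he
    rw [mem_filter, mem_ins_HCL] at he
    obtain ⟨⟨heE, heU⟩, hv⟩ := he
    obtain ⟨u, rfl⟩ := Sym2.mem_iff_exists.1 hv
    rw [mem_image]
    refine ⟨u, ?_, rfl⟩
    unfold nb
    rw [mem_filter]
    refine ⟨heU u (Sym2.mem_mk_right v u), ?_, heE⟩
    rintro rfl
    exact hE _ heE (Sym2.mk_isDiag_iff.2 rfl)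
  exact (card_le_card h1).trans card_image_le

private theorem cod_HCL {V : Type} [Fintype V] [DecidableEq V] {S E : Finset (Sym2 V)}
    (U : Finset V) {x y : ℝ} (h : Codeg (S ∪ E) x) (hxy : x ≤ y) :
    Codeg (ins S U ∪ ins E U) y := by
  classical
  intro v w hvw
  refine le_trans ?_ ((h v w hvw).trans hxy)
  have hsub : ∀ e, e ∈ ins S U ∪ ins E U → e ∈ S ∪ E := by
    intro e he
    rw [mem_union, mem_ins_HCL, mem_ins_HCL] at he
    rw [mem_union]
    rcases he with h | h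
    · exact Or.inl h.1
    · exact Or.inr h.1
  refine Nat.cast_le.2 ?_
  exact Nat.card_le_card_of_injective
    (fun z : {x // s(v, x) ∈ ins S U ∪ ins E U ∧ s(w, x) ∈ ins S U ∪ ins E U} =>
      (⟨z.1, hsub _ z.2.1, hsub _ z.2.2⟩ : {x // s(v, x) ∈ S ∪ E ∧ s(w, x) ∈ S ∪ E}))
    (fun a b hab => Subtype.ext (by simpa using hab))

theorem hHCL (hNHC : StNHC) (hNHB : StNHB) : StHCL := by
  classical
  intro ε η γ c hε hεη hη hγ hγ1 hc hcc
  obtain ⟨d₁, hd₀⟩ := hNHC ε η γ c hε hεη hη hγ hγ1 hc hcc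
  obtain ⟨d₂, hd₂⟩ := hNHB ε η γ (c / 4) hε hεη hη hγ hγ1 (by linarith)
  refine ⟨max d₁ d₂, ?_⟩
  intro V _ _ S E U DS DR p d q l l' hP' hPls hlS hlE hdis hcod hll hl hdS hdE
  have hP : Par2 ε η γ (c / 4) d₁ DS DR p d q (Fintype.card V) :=
    { hP' with hd0 := (le_max_left _ _).trans hP'.hd0 }
  have hP2 : Par2 ε η γ (c / 4) d₂ DS DR p d q (Fintype.card V) :=
    { hP' with hd0 := (le_max_right _ _).trans hP'.hd0 }
  have hl' : l' ≤ lv ε d := by
    rcases hll with rfl | ⟨rfl, h⟩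
    · exact hl
    · exact h
  have ha : (0 : ℝ) < (pl ε d q l' : ℝ) := by exact_mod_cast hPls.pos l'
  have hε4 : 0 < 1 - ε / 4 := by linarith
  have hr1 : (1 : ℝ) ≤ (pl ε d q l : ℝ) / (pl ε d q l' : ℝ) := by
    rw [one_le_div ha]
    rcases hll with rfl | ⟨rfl, h⟩
    · exact le_rfl
    · exact_mod_cast hPls.dec l
  have hr2 : (pl ε d q l : ℝ) / (pl ε d q l' : ℝ) ≤ (1 + ε / 100) / (1 - ε / 4) := by
    rw [div_le_iff₀ ha]
    rcases hll with rfl | ⟨rfl, h⟩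
    · have h1 : 1 ≤ (1 + ε / 100) / (1 - ε / 4) := by
        rw [one_le_div hε4]
        linarith
      nlinarith
    · exact hPls.ste l h
  have hQq : (QQ ε d q : ℝ) ≤ (q : ℝ) := by
    have := hPls.Qhi
    exact_mod_cast (le_trans (Nat.le_add_right _ _) this)
  obtain ⟨H1, H2, H3, H4, H5, -, H7⟩ := hd₀ DS DR p d (QQ ε d q)
    ((pl ε d q l : ℝ) / (pl ε d q l' : ℝ)) q (Fintype.card V) (pl ε d q l') hP hPls.Qlo hQq
    (hPls.lo l' hl') (hPls.hi l') hr1 hr2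
  have H8 := hd₂ DS DR p d (QQ ε d q)
    ((pl ε d q l : ℝ) / (pl ε d q l' : ℝ)) q (Fintype.card V) (pl ε d q l') hP2 hPls.Qlo hQq
    (hPls.lo l' hl') (hPls.hi l') hr1 hr2
  have hre : ∀ D : ℝ, (1 + ε / 100) * (D * (pl ε d q l' : ℝ) / (QQ ε d q : ℝ)) *
      ((pl ε d q l : ℝ) / (pl ε d q l' : ℝ)) =
      (1 + ε / 100) * (D * (pl ε d q l : ℝ) / (QQ ε d q : ℝ)) := by
    intro D
    have ha' : (pl ε d q l' : ℝ) ≠ 0 := ha.ne'
    calc (1 + ε / 100) * (D * (pl ε d q l' : ℝ) / (QQ ε d q : ℝ)) *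
        ((pl ε d q l : ℝ) / (pl ε d q l' : ℝ))
        = (1 + ε / 100) * (D * (pl ε d q l : ℝ) / (QQ ε d q : ℝ)) *
          ((pl ε d q l' : ℝ) / (pl ε d q l' : ℝ)) := by ring
      _ = _ := by rw [div_self ha', mul_one]
  rw [hre] at H1 H2
  rw [hre, hre] at H3 H4 H8
  refine ⟨?_, ?_, ?_, ?_, ?_, ?_, ?_, ?_, H1, H2, H3, H4, H5, hP.phi, H7⟩
  · exact fun e he => hlS e (mem_ins_HCL.1 he).1
  · exact fun e he => hlE e (mem_ins_HCL.1 he).1
  · rw [Finset.disjoint_left] at hdis ⊢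
    exact fun e he he' => hdis (mem_ins_HCL.1 he).1 (mem_ins_HCL.1 he').1
  · exact fun e he => (mem_ins_HCL.1 he).2
  · exact fun e he => (mem_ins_HCL.1 he).2
  · exact fun v => (Nat.cast_le.2 (inc_ins_HCL hlS U v)).trans (hdS v)
  · exact fun v => (Nat.cast_le.2 (inc_ins_HCL hlE U v)).trans (hdE v)
  · exact cod_HCL U hcod H8

end Pool.Agent.Helper21.PV
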