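import Pool.Agent.Helper21.PV.St

/-! Project PV, module LK1: facts on the cap bound `k1` and the codegree bound `BB`. -/

set_option autoImplicit false

namespace Pool.Agent.Helper21.PV

open Finset Pool.Agent.Helper31.RS Pool.Agent.Helper21.PT

theorem hLK1 (h0 : StLN0) : StLK1 := by
  intro η γ hη hη4 hγ hγ1
  obtain ⟨q₀, hq₀⟩ := h0 η γ hη hη4 hγ hγ1
  obtain ⟨q₁, hq₁⟩ := exists_nat_ge ((8 : ℝ) ^ (4 / (3 * η)))
  refine ⟨max 3 (max q₀ q₁), fun DS DR p q hq hDS h1 h2 h3 hp0 hp1 => ?_⟩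
  have hq3 : 3 ≤ q := (le_max_left _ _).trans hq
  have hqa : q₀ ≤ q := (le_max_left _ _).trans ((le_max_right _ _).trans hq)
  have hqb : q₁ ≤ q := (le_max_right _ _).trans ((le_max_right _ _).trans hq)
  have hqq : (q₁ : ℝ) ≤ q := by exact_mod_cast hqb
  have hq3' : (3 : ℝ) ≤ q := by exact_mod_cast hq3
  have hq0 : (0 : ℝ) < q := by linarith
  obtain ⟨hL, hb0, hb1, -, -, -, -⟩ := hq₀ DS DR p q hqa hDS h1 h2 h3 hp0 hp1
  have hL0 : 0 < Real.log q := by linarith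
  have hK : (0 : ℝ) < KK η := by
    have : 0 < KK η := Nat.ceil_pos.2 (by positivity)
    exact_mod_cast this
  have hk0 : k0 η q ≤ 1 / 8 := by
    unfold k0
    have h4 : (8 : ℝ) ^ (4 / (3 * η)) ≤ q := hq₁.trans hqq
    have h5 : ((8 : ℝ) ^ (4 / (3 * η))) ^ (3 * η / 4) ≤ (q : ℝ) ^ (3 * η / 4) :=
      Real.rpow_le_rpow (by positivity) h4 (by positivity)
    rw [← Real.rpow_mul (by norm_num)] at h5
    have h6 : 4 / (3 * η) * (3 * η / 4) = 1 := by
      field_simp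
    rw [h6, Real.rpow_one] at h5
    rw [Real.rpow_neg hq0.le, one_div]
    exact inv_anti₀ (by norm_num) h5
  have hk1 : k1 η DS DR p q ≤ k0 η q := by
    unfold k1 k0
    exact Real.rpow_le_rpow_of_exponent_le (by linarith) (by linarith)
  refine ⟨hk1.trans hk0, Real.rpow_pos_of_pos hq0 _, hk1, ?_, (Real.rpow_pos_of_pos hq0 _).le,
    fun j => ?_⟩
  · unfold k1 BB
    rw [← Real.rpow_add hq0]
    congr 1
    ring
  · unfold k1 lm
    rw [Real.rpow_def_of_pos hq0]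
    apply Real.exp_le_exp.2
    have hj : ((j : ℕ) : ℝ) + 1 ≤ KK η := by exact_mod_cast j.2
    have h4 : bb DS DR p q * (((j : ℕ) : ℝ) + 1) / KK η ≤ bb DS DR p q := by
      rw [div_le_iff₀ hK]
      exact mul_le_mul_of_nonneg_left hj hb0
    have h5 := mul_le_mul_of_nonneg_right h4 hL0.le
    nlinarith

end Pool.Agent.Helper21.PV
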