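import Pool.Agent.Helper21.PV.St

set_option autoImplicit false

namespace Pool.Agent.Helper21.PV

open Finset Pool.Agent.Helper31.RS
open Pool.Agent.Helper21.PT hiding Host StLAW StLN1 StLN2 StLPR StLBD StLSM StLZT StHDN StHSB StEXN StCL2 StHCL
  StCB2 StPR2 StBD2

theorem hLPR (_hLN0 : StLN0) (hLK1 : StLK1) : StLPR := by
  classical
  intro η γ c hη hη4 hγ hγ1
  obtain ⟨q₀, hq₀⟩ := hLK1 η γ hη hη4 hγ hγ1
  refine ⟨max q₀ 1, ?_⟩
  intro V _ _ S E W DS DR p q t hq hH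
  have hq1 : q₀ ≤ q := (le_max_left _ _).trans hq
  have hq2 : 1 ≤ q := (le_max_right _ _).trans hq
  have hqr : (1 : ℝ) ≤ (q : ℝ) := by exact_mod_cast hq2
  have hq0 : (0 : ℝ) < (q : ℝ) := lt_of_lt_of_le one_pos hqr
  have hlog : 0 ≤ Real.log q := Real.log_nonneg hqr
  have hp0 : 0 < p := lt_of_lt_of_le (Real.rpow_pos_of_pos hq0 _) hH.plo
  have hp1 : p ≤ 1 := hH.phi.trans (by linarith)
  have hDS : 0 ≤ DS := le_trans (mul_nonneg hη.le (mul_nonneg hq0.le hlog)) hH.loS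
  obtain ⟨h4, -, -, -, -, h5⟩ := hq₀ DS DR p q hq1 hDS hH.loE hH.up1 hH.up2 hp0 hH.phi
  refine ⟨?_, ?_, ?_, ?_, ?_, ?_, h4.trans (by norm_num)⟩
  · intro v w
    unfold pe
    split_ifs
    · exact zero_le_one
    · exact hp0.le
    · exact le_rfl
  · intro v w
    unfold pe
    split_ifs
    · exact le_rfl
    · exact hp1
    · exact zero_le_one
  · intro v w
    unfold pe
    rw [Sym2.eq_swap]
  · intro v
    unfold pe
    rw [if_neg (fun h => hH.lS _ h (Sym2.mk_isDiag_iff.2 rfl)),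
      if_neg (fun h => hH.lE _ h (Sym2.mk_isDiag_iff.2 rfl))]
  · intro v
    exact Real.exp_pos _
  · intro v
    exact h5 (t v)

end Pool.Agent.Helper21.PV
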