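import Pool.Agent.Helper21.PV.St

/-!
# PV module NHB: numeric, codegrees in the cells
-/

set_option autoImplicit false

namespace Pool.Agent.Helper21.PV

open Finset Pool.Agent.Helper31.RS Pool.Agent.Helper21.PT

private theorem poly_NHB {ε δ : ℝ} (h0 : 0 < ε) (h1 : ε ≤ 1 / 32) (hδ0 : 0 ≤ δ)
    (hδ : δ ≤ ε / 100) :
    (1 + ε / 100) ^ 2 ≤ (1 + ε / 2) * ((1 - ε / 4) * (1 - δ) * (1 - ε / 16)) := by
  have a1 : (1 + ε / 100) ^ 2 ≤ 1 + 21 / 1000 * ε := by nlinarith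
  have a2 : 1 - ε / 4 - ε / 100 ≤ (1 - ε / 4) * (1 - δ) := by nlinarith
  have a3 : (1 - ε / 4 - ε / 100) * (1 - ε / 16) ≤ (1 - ε / 4) * (1 - δ) * (1 - ε / 16) :=
    mul_le_mul_of_nonneg_right a2 (by linarith)
  have a4 : 1 - 33 / 100 * ε ≤ (1 - ε / 4 - ε / 100) * (1 - ε / 16) := by nlinarith
  have a5 : (1 + ε / 2) * (1 - 33 / 100 * ε) ≤
      (1 + ε / 2) * ((1 - ε / 4) * (1 - δ) * (1 - ε / 16)) :=
    mul_le_mul_of_nonneg_left (a4.trans a3) (by linarith)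
  have a6 : 1 + 21 / 1000 * ε ≤ (1 + ε / 2) * (1 - 33 / 100 * ε) := by nlinarith
  exact a1.trans (a6.trans a5)

private theorem hp_nonneg_NHB {p : ℝ} (h1 : p < 1) : 0 ≤ hp p := by
  have h2 : 0 < 1 - p := by linarith
  have h3 := Real.one_sub_inv_le_log_of_pos h2
  have h4 : (1 - p) * (1 - (1 - p)⁻¹) ≤ (1 - p) * Real.log (1 - p) :=
    mul_le_mul_of_nonneg_left h3 h2.le
  have h5 : (1 - p) * (1 - (1 - p)⁻¹) = -p := by
    rw [mul_sub, mul_inv_cancel₀ h2.ne']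
    ring
  rw [hp]
  linarith

theorem hNHB : StNHB := by
  intro ε η γ c h0 h1 h2 _ _ hc
  refine ⟨Real.exp (max 4 (200 / ε)), ?_⟩
  intro DS DR p d Q r q n a hpar hQ1 hQ2 ha1 ha2 hr1 hr2
  obtain ⟨hd, hd0, loS, loE, plo, phi, hn, hln, q1, q2, qhi⟩ := hpar
  have hη : 0 < η := by linarith
  have hdp : 0 < d := lt_of_lt_of_le (Real.exp_pos _) hd0
  have hLb : max 4 (200 / ε) ≤ Real.log d := by
    rw [Real.le_log_iff_exp_le hdp]; exact hd0
  set L := Real.log d with hL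
  have L4 : 4 ≤ L := (le_max_left _ _).trans hLb
  have Lε : 200 / ε ≤ L := (le_max_right _ _).trans hLb
  have hL0 : 0 < L := by linarith
  have d1 : 1 ≤ d := by
    by_contra hcon
    push Not at hcon
    have : L < 0 := Real.log_neg hdp hcon
    linarith
  set δ := 2 / L ^ 2 with hδd
  have hδ0 : 0 ≤ δ := by positivity
  have hδ : δ ≤ ε / 100 := by
    rw [hδd, div_le_div_iff₀ (by positivity) (by norm_num)]
    have h3 : 200 ≤ L * ε := (div_le_iff₀ h0).1 Lε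
    nlinarith
  have hδ1 : 0 < 1 - δ := by linarith
  have hq0 : (0 : ℝ) < q := lt_of_lt_of_le (by positivity) q1
  have hQ0 : 0 < Q := lt_of_lt_of_le (mul_pos hq0 hδ1) hQ1
  have hap : (0 : ℝ) < a := lt_of_lt_of_le (Real.rpow_pos_of_pos hdp _) ha1
  have hloga0 : (1 - ε / 16) * L ≤ Real.log a := by
    have := Real.log_le_log (Real.rpow_pos_of_pos hdp _) ha1
    rwa [Real.log_rpow hdp] at this
  have hε16 : 0 < 1 - ε / 16 := by linarith
  have hε4 : 0 < 1 - ε / 4 := by linarith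
  have hlog : 0 < Real.log a := lt_of_lt_of_le (mul_pos hε16 hL0) hloga0
  -- the quantity `X`
  have hp0 : 0 < p := lt_of_lt_of_le (Real.rpow_pos_of_pos hdp _) plo
  have hp1 : p < 1 := by linarith
  have hDR : 0 ≤ DR := by
    by_contra hneg
    push Not at hneg
    have e1 : p * DR < 0 := mul_neg_of_pos_of_neg hp0 hneg
    have e2 : 0 < η * d := mul_pos hη hdp
    linarith
  have hDS : 0 ≤ DS := le_trans (mul_nonneg hη.le hdp.le) loS
  obtain ⟨X, hX⟩ : ∃ X, X = DS + hp p * DR := ⟨_, rfl⟩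
  have hX0 : 0 ≤ X := by
    rw [hX]
    exact add_nonneg hDS (mul_nonneg (hp_nonneg_NHB hp1) hDR)
  obtain ⟨b, hb⟩ : ∃ b, b = X / (q * L) := ⟨_, rfl⟩
  have hqL : 0 < (q : ℝ) * L := mul_pos hq0 hL0
  have hb0 : 0 ≤ b := by rw [hb]; positivity
  have hb1 : b ≤ 1 - η / 3 := by
    rw [hb, div_le_iff₀ hqL]
    have e1 : (q : ℝ) * L ≤ 3 * d := (le_div_iff₀ hL0).1 qhi
    have e2 : η / 3 * (q * L) ≤ η * d := by
      have := mul_le_mul_of_nonneg_left e1 (show 0 ≤ η / 3 by linarith)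
      linarith
    rw [← hX] at q2
    linarith
  -- the quantity `b_a`
  obtain ⟨ba, hba⟩ : ∃ ba, ba = bb ((1 + ε / 100) * (DS * a / Q) * r)
    ((1 + ε / 100) * (DR * a / Q) * r) p a := ⟨_, rfl⟩
  have hba1 : ba = ((1 + ε / 100) * r) * (X / (Q * Real.log a)) := by
    rw [hba, bb, hX]
    field_simp
  have hba2 : ba ≤ b + ε / 2 := by
    have e1 : (q * (1 - δ)) * ((1 - ε / 16) * L) ≤ Q * Real.log a :=
      mul_le_mul hQ1 hloga0 (mul_nonneg hε16.le hL0.le) hQ0.le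
    have e2 : 0 < (q * (1 - δ)) * ((1 - ε / 16) * L) := by positivity
    have e3 : X / (Q * Real.log a) ≤ X / ((q * (1 - δ)) * ((1 - ε / 16) * L)) :=
      div_le_div_of_nonneg_left hX0 e2 e1
    have e4 : (1 + ε / 100) * r ≤ (1 + ε / 100) ^ 2 / (1 - ε / 4) := by
      calc (1 + ε / 100) * r ≤ (1 + ε / 100) * ((1 + ε / 100) / (1 - ε / 4)) :=
            mul_le_mul_of_nonneg_left hr2 (by positivity)
        _ = _ := by ring
    have e5 : 0 ≤ X / (Q * Real.log a) := by positivity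
    have e6 : ba ≤ ((1 + ε / 100) ^ 2 / (1 - ε / 4)) *
        (X / ((q * (1 - δ)) * ((1 - ε / 16) * L))) := by
      rw [hba1]
      exact mul_le_mul e4 e3 e5 (by positivity)
    have e7 : ((1 + ε / 100) ^ 2 / (1 - ε / 4)) * (X / ((q * (1 - δ)) * ((1 - ε / 16) * L))) =
        b * ((1 + ε / 100) ^ 2 / ((1 - ε / 4) * (1 - δ) * (1 - ε / 16))) := by
      rw [hb]
      field_simp
    have e8 : (1 + ε / 100) ^ 2 / ((1 - ε / 4) * (1 - δ) * (1 - ε / 16)) ≤ 1 + ε / 2 := by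
      rw [div_le_iff₀ (by positivity)]
      exact poly_NHB h0 (by linarith) hδ0 hδ
    rw [e7] at e6
    have e9 := mul_le_mul_of_nonneg_left e8 hb0
    have e10 : b * (ε / 2) ≤ 1 * (ε / 2) := mul_le_mul_of_nonneg_right (by linarith) (by linarith)
    linarith
  have hba0 : 0 ≤ ba := by
    rw [hba1]
    have : 0 ≤ r := by linarith
    positivity
  -- conclusion
  have he : 0 ≤ 1 - η / 8 - ba := by linarith
  have f1 : Bq η DS DR p d q = d ^ (1 - η / 4 - b) := by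
    rw [Bq, ← hX, ← hL, ← hb]
  have f2 : BB (η / 4) ((1 + ε / 100) * (DS * a / Q) * r) ((1 + ε / 100) * (DR * a / Q) * r) p a =
      (a : ℝ) ^ (1 - η / 8 - ba) := by
    rw [BB, ← hba]
    congr 2
    ring
  rw [f1, f2]
  calc d ^ (1 - η / 4 - b) ≤ d ^ ((1 - ε / 16) * (1 - η / 8 - ba)) := by
        apply Real.rpow_le_rpow_of_exponent_le d1
        have g1 : ε / 16 * (1 - η / 8 - ba) ≤ ε / 16 * 1 :=
          mul_le_mul_of_nonneg_left (by linarith) (by linarith)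
        linarith
    _ = (d ^ (1 - ε / 16)) ^ (1 - η / 8 - ba) := by rw [← Real.rpow_mul hdp.le]
    _ ≤ (a : ℝ) ^ (1 - η / 8 - ba) :=
        Real.rpow_le_rpow (Real.rpow_pos_of_pos hdp _).le ha1 he

end Pool.Agent.Helper21.PV

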