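import Pool.Agent.Helper21.PT.StK
import Pool.Agent.Helper21.PT.StR

/-!
# PV: the same theorem with the weak codegree condition (statements)

Version 2 of the statements of `Helper21/PT` which mention `Host`: the codegree bound is now
`q^(1 - η/2 - b)`, `b = (DS + h(p) DR)/(q log q)`, and the cap bound is `κ₁ = q^(-(1 - η/4 - b))`, so
`κ₁ · codegree = q^(-η/4)`.
-/

set_option autoImplicit false

namespace Pool.Agent.Helper21.PV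

open Finset Pool.Agent.Helper31.RS Pool.Agent.Helper21.PT

/-- The cap bound `κ₁ = q^(-(1 - η/4 - b))`. -/
noncomputable def k1 (η DS DR p : ℝ) (q : ℕ) : ℝ := (q : ℝ) ^ (-(1 - η / 4 - bb DS DR p q))

/-- The codegree bound `q^(1 - η/2 - b)`. -/
noncomputable def BB (η DS DR p : ℝ) (q : ℕ) : ℝ := (q : ℝ) ^ (1 - η / 2 - bb DS DR p q)

/-- A host for the palette `q`: fixed edges `S`, random edges `E` of density `p`, inside `W`. -/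
structure Host {V : Type} [Fintype V] [DecidableEq V] (η γ c : ℝ) (S E : Finset (Sym2 V))
    (W : Finset V) (DS DR p : ℝ) (q : ℕ) : Prop where
  lS : Loopless S
  lE : Loopless E
  dis : Disjoint S E
  iS : ∀ e ∈ S, ∀ v ∈ e, v ∈ W
  iE : ∀ e ∈ E, ∀ v ∈ e, v ∈ W
  dS : ∀ v, ((inc S v).card : ℝ) ≤ DS
  dE : ∀ v, ((inc E v).card : ℝ) ≤ DR
  cod : Codeg (S ∪ E) (BB η DS DR p q)
  loS : η * (q * Real.log q) ≤ DS
  loE : η * (q * Real.log q) ≤ p * DR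
  up1 : DS + p * DR ≤ 2 * (1 - η) * (q * Real.log q)
  up2 : DS + hp p * DR ≤ (1 - η) * (q * Real.log q)
  plo : (q : ℝ) ^ (-c) ≤ p
  phi : p ≤ 1 - γ
  lnV : Real.log (Fintype.card V) ≤ (q : ℝ) ^ c

/-- LAW (main statement). -/
def StLAW : Prop :=
  ∀ η γ : ℝ, 0 < η → η ≤ 1 / 4 → 0 < γ → γ < 1 → ∃ (c : ℝ) (q₀ : ℕ), 0 < c ∧
    ∀ (V : Type) [Fintype V] [DecidableEq V] (S E : Finset (Sym2 V)) (W : Finset V)
      (DS DR p : ℝ) (q : ℕ), q₀ ≤ q → Host η γ c S E W DS DR p q →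
      (q : ℝ) ^ (1 / 8 : ℝ) ≤ W.card →
      ∃ (Ω : Finset (Om V q)) (ν : Om V q → ℝ) (Mf : Om V q → Finset (Sym2 V))
        (bd : Om V q → Finset V), Good c S E W p q Ω ν Mf bd

/-- LK1 (facts on `κ₁`, from LN0 of PT). -/
def StLK1 : Prop :=
  ∀ η γ : ℝ, 0 < η → η ≤ 1 / 4 → 0 < γ → γ < 1 → ∃ q₀ : ℕ, ∀ (DS DR p : ℝ) (q : ℕ), q₀ ≤ q →
    0 ≤ DS → η * (q * Real.log q) ≤ p * DR → DS + p * DR ≤ 2 * (1 - η) * (q * Real.log q) →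
    DS + hp p * DR ≤ (1 - η) * (q * Real.log q) → 0 < p → p ≤ 1 - γ →
    k1 η DS DR p q ≤ 1 / 8 ∧ 0 < k1 η DS DR p q ∧ k1 η DS DR p q ≤ k0 η q ∧
    k1 η DS DR p q * BB η DS DR p q = (q : ℝ) ^ (-(η / 4)) ∧ 0 ≤ BB η DS DR p q ∧
    ∀ j, Real.exp (-lm η DS DR p q j) ≤ k1 η DS DR p q

/-- LN1 (numeric part of DRO for a vertex of block `j`), as in PT with `κ₁`, `BB`. -/
def StLN1 : Prop :=
  ∀ η γ : ℝ, 0 < η → η ≤ 1 / 4 → 0 < γ → γ < 1 → ∃ (c : ℝ) (q₀ : ℕ), 0 < c ∧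
    ∀ (DS DR p : ℝ) (q : ℕ) (j : Fin (KK η)), q₀ ≤ q → 0 ≤ DS → 0 ≤ DR →
    η * (q * Real.log q) ≤ p * DR →
    DS + p * DR ≤ 2 * (1 - η) * (q * Real.log q) →
    DS + hp p * DR ≤ (1 - η) * (q * Real.log q) → 0 < p → p ≤ 1 - γ →
    ∃ (z : ℝ) (r : ℕ), (r : ℝ) * (4 * k1 η DS DR p q) < z ∧ k1 η DS DR p q * (r + 1) ≤ 1 / 4 ∧
      ((q : ℝ)⁻¹ * ((1 + η / 100) * (((j : ℕ) + 1) / KK η) *
          (DS * psi (η / 200) (k1 η DS DR p q) 1 + DR * psi (η / 200) (k1 η DS DR p q) p)) /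
        (z - r * (4 * k1 η DS DR p q))) ^ r *
          Real.exp (2 / 3 * k1 η DS DR p q * ((r + 1) ^ 2 * BB η DS DR p q)) +
        ((q : ℝ) * Real.exp (-lm η DS DR p q j)) ^ (-(η / 200)) * Real.exp z ≤ (q : ℝ) ^ (-c)

/-- LN2 (numeric part of DEG), as in PT with `κ₁`, `BB`. -/
def StLN2 : Prop :=
  ∀ η γ : ℝ, 0 < η → η ≤ 1 / 4 → 0 < γ → γ < 1 → ∃ (c : ℝ) (q₀ : ℕ), 0 < c ∧
    ∀ (DS DR p : ℝ) (q : ℕ), q₀ ≤ q → 0 ≤ DS → η * (q * Real.log q) ≤ p * DR →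
    DS + p * DR ≤ 2 * (1 - η) * (q * Real.log q) →
    DS + hp p * DR ≤ (1 - η) * (q * Real.log q) → (q : ℝ) ^ (-c) ≤ p → p ≤ 1 - γ →
    ∃ r : ℕ, (r : ℝ) < yy η DR p q ∧ k1 η DS DR p q * (r + 1) ≤ 1 / 4 ∧
      ((1 + η / 100) * (DR / KK η) * (1 - p) / (q * (yy η DR p q - r))) ^ r *
        Real.exp (2 * k1 η DS DR p q * ((r + 1) ^ 2 * (BB η DS DR p q + 1))) ≤ (q : ℝ) ^ (-c)

/-- LPR (the hypotheses `Pre`). -/
def StLPR : Prop :=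
  ∀ η γ c : ℝ, 0 < η → η ≤ 1 / 4 → 0 < γ → γ < 1 → ∃ q₀ : ℕ, ∀ (V : Type) [Fintype V]
    [DecidableEq V] (S E : Finset (Sym2 V)) (W : Finset V) (DS DR p : ℝ) (q : ℕ)
    (t : V → Fin (KK η)), q₀ ≤ q → Host η γ c S E W DS DR p q →
    Pre (pe S E p) (fun v => Real.exp (-lm η DS DR p q (t v))) (k1 η DS DR p q)

/-- LBD (few bad vertices). -/
def StLBD : Prop :=
  ∀ η γ : ℝ, 0 < η → η ≤ 1 / 4 → 0 < γ → γ < 1 → ∃ (c : ℝ) (q₀ : ℕ), 0 < c ∧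
    ∀ (V : Type) [Fintype V] [DecidableEq V] (S E : Finset (Sym2 V)) (W : Finset V)
      (DS DR p : ℝ) (q n : ℕ) (t : V → Fin (KK η)) (rk : V ≃ Fin n)
      (π : V → Om V q → Fin q → ℝ), q₀ ≤ q → Host η γ c S E W DS DR p q →
      Tbl η S E DS DR t rk →
      Law (pe S E p) (fun v => Real.exp (-lm η DS DR p q (t v))) W rk π →
      ∀ v ∈ W, EE π (fun ω => if v ∈ bdm E t (yy η DR p q) W ω then 1 else 0) ≤ (q : ℝ) ^ (-c)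

/-- LSM (second moment). -/
def StLSM : Prop :=
  ∀ η γ : ℝ, 0 < η → η ≤ 1 / 4 → 0 < γ → γ < 1 → ∃ (c : ℝ) (q₀ : ℕ), 0 < c ∧
    ∀ (V : Type) [Fintype V] [DecidableEq V] (S E : Finset (Sym2 V)) (W : Finset V)
      (DS DR p : ℝ) (q n : ℕ) (t : V → Fin (KK η)) (rk : V ≃ Fin n)
      (π : V → Om V q → Fin q → ℝ), q₀ ≤ q → Host η γ c S E W DS DR p q →
      Law (pe S E p) (fun v => Real.exp (-lm η DS DR p q (t v))) W rk π →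
      ∀ F ⊆ E, (∀ v j, ((nb F (univ.filter (fun u => t u = j)) v).card : ℝ) ≤ yy η DR p q) →
        EE π (fun ω => ((1 - p) ^ (Fm F ω).card)⁻¹) ≤ Real.exp ((q : ℝ) ^ (-c) * W.card)

/-- LZT (`Zt` is small with probability at least `1/(2L²)`). -/
def StLZT : Prop :=
  ∀ η γ : ℝ, 0 < η → η ≤ 1 / 4 → 0 < γ → γ < 1 → ∃ (c : ℝ) (q₀ : ℕ), 0 < c ∧
    ∀ (V : Type) [Fintype V] [DecidableEq V] (S E : Finset (Sym2 V)) (W : Finset V)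
      (DS DR p : ℝ) (q n : ℕ) (t : V → Fin (KK η)) (rk : V ≃ Fin n)
      (π : V → Om V q → Fin q → ℝ), q₀ ≤ q → Host η γ c S E W DS DR p q → 0 < W.card →
      Law (pe S E p) (fun v => Real.exp (-lm η DS DR p q (t v))) W rk π →
      EE π (fun ω => if ne S E p / q + 2 * W.card / Real.log q < Zt (pe S E p) rk π ω then 1 else 0) ≤
        1 - 1 / (2 * Real.log q ^ 2)

/-- HDN (hosts for `m` are hosts for `m - 1`).  New: `m^(1-η/2-b_m) ≤ (m-1)^(1-η/4-b_(m-1))`: `b_(m-1) ≤ b_m + η/16`. -/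
def StHDN : Prop :=
  ∀ η γ c : ℝ, 0 < η → η ≤ 1 / 4 → 0 < γ → γ < 1 → 0 < c → ∃ m₀ : ℕ, ∀ (V : Type) [Fintype V]
    [DecidableEq V] (S E : Finset (Sym2 V)) (W : Finset V) (DS DR p : ℝ) (m : ℕ), m₀ ≤ m →
    Host η γ c S E W DS DR p m → Host (η / 2) γ (2 * c) S E W DS DR p (m - 1)

/-- HSB (sub-hosts). -/
def StHSB : Prop :=
  ∀ (V : Type) [Fintype V] [DecidableEq V] (η γ c : ℝ) (S E : Finset (Sym2 V)) (W X : Finset V)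
    (DS DR p : ℝ) (m : ℕ), X ⊆ W → Host η γ c (ins S W) (ins E W) W DS DR p m →
    Host η γ c (ins S X) (ins E X) X DS DR p m

/-- EXN (near-proper colourings). -/
def StEXN : Prop :=
  ∀ η γ : ℝ, 0 < η → η ≤ 1 / 4 → 0 < γ → γ < 1 → ∃ c : ℝ, 0 < c ∧ ∀ c₁ : ℝ, 0 < c₁ → c₁ ≤ c →
    ∃ m₀ : ℕ, ∀ (V : Type) [Fintype V] [DecidableEq V] (S E : Finset (Sym2 V)) (W : Finset V)
      (DS DR p d : ℝ) (m : ℕ) [NeZero m], m₀ ≤ m → d ^ (1 / 2 : ℝ) ≤ m → (m : ℝ) ≤ d →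
      Host η γ c S E W DS DR p m → d ^ (1 / 4 : ℝ) ≤ W.card →
      Pr p E (fun F => ¬ ((∃ (σ : V → Fin m) (Z : Finset V), Z ⊆ W ∧
          (Z.card : ℝ) ≤ 11 * d ^ (-c₁) * W.card ∧ Proper (S ∪ F) (W \ Z) σ) ∧
        Fam (S ∪ F) W m (11 * d ^ (-c₁) * W.card) (hn (d ^ (-c₁)) W.card (ne S E p) m))) ≤
        Real.exp (-d ^ (-(3 * c₁)) * W.card)

/-- CL2 (one cell). -/
def StCL2 : Prop :=
  ∀ η γ : ℝ, 0 < η → η ≤ 1 / 4 → 0 < γ → γ < 1 → ∃ c : ℝ, 0 < c ∧ ∀ c₁ : ℝ, 0 < c₁ → c₁ ≤ c →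
    ∃ m₀ : ℕ, ∀ (V : Type) [Fintype V] [DecidableEq V] (S E : Finset (Sym2 V)) (U : Finset V)
      (t m m' : ℕ) [NeZero m] [NeZero m'] (DS DR p d Δ₂ ρ : ℝ), m₀ ≤ m → m₀ ≤ m' →
      d ^ (1 / 2 : ℝ) ≤ m → (m : ℝ) ≤ d → d ^ (1 / 2 : ℝ) ≤ m' → (m' : ℝ) ≤ d → 0 < d →
      Loopless S → Loopless E → 0 ≤ p → p ≤ 1 → (∀ v, ((nb S U v).card : ℝ) ≤ DS) →
      (∀ v, ((nb E U v).card : ℝ) ≤ DR) → Host η γ c (ins S U) (ins E U) U DS DR p m →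
      Host η γ c (ins S U) (ins E U) U DS DR p m' →
      3 ≤ Fintype.card V → 1 ≤ t → t ≤ m → t ≤ m' → 0 ≤ Δ₂ →
      ρ = 2 * Real.log (Fintype.card V) / t → ρ ≤ 1 / 8 →
      d ^ (1 / 4 : ℝ) ≤ (t : ℝ) / 2 → d ^ (1 / 4 : ℝ) ≤ U.card →
      64 * (Real.log (Fintype.card V)) ^ 2 ≤ d ^ (-(3 * c₁)) * t →
      64 * Real.log (Fintype.card V) ≤ d ^ (-(3 * c₁)) * t →
      Pr p E (fun F => ¬ ((∀ v, ((nb (S ∪ F) U v).card : ℝ) ≤ Δ₂) ∧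
        Hered (S ∪ F) U m (4 * ρ * (11 * d ^ (-c₁) * Δ₂ + 1)) ∧
        Hered (S ∪ F) U m' (4 * ρ * (11 * d ^ (-c₁) * Δ₂ + 1)) ∧
        Fam (S ∪ F) U m (11 * d ^ (-c₁) * U.card)
          (hn (d ^ (-c₁)) U.card (ne (ins S U) (ins E U) p) m))) ≤
        Fintype.card V * Real.exp (2 * p * DR + DS - Δ₂) +
          4 * Real.exp (-(d ^ (-(3 * c₁)) * t) / (32 * Real.log (Fintype.card V))) +
          Real.exp (-d ^ (-(3 * c₁)) * U.card)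

/-- The codegree bound for one value of `q`: `d^(1 - η/4 - b)`, `b = (DS + h DR)/(q log d)`. -/
noncomputable def Bq (η DS DR p d : ℝ) (q : ℕ) : ℝ :=
  d ^ (1 - η / 4 - (DS + hp p * DR) / (q * Real.log d))

/-- NHB (numeric: codegrees in the cells).  `a` is a palette, `DS' = (1+ε/100)(DS a/Q) r` etc. as in NHC of PT:
`b_a = (DS' + h DR')/(a log a) ≤ b (1+ε/100)²/((1-ε/4)(1-2/L²)(1-ε/16)) ≤ b + ε/2`, `b ≤ 1`, so
`a^(1 - η/8 - b_a) ≥ d^((1-ε/16)(1 - η/8 - b - ε/2)) ≥ d^(1 - η/4 - b)` (`ε ≤ η/8`). -/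
def StNHB : Prop :=
  ∀ ε η γ c : ℝ, 0 < ε → ε ≤ η / 8 → η ≤ 1 / 4 → 0 < γ → γ < 1 → 0 < c → ∃ d₀ : ℝ,
    ∀ (DS DR p d Q r : ℝ) (q n a : ℕ), Par2 ε η γ c d₀ DS DR p d q n →
    (q : ℝ) * (1 - 2 / Real.log d ^ 2) ≤ Q → Q ≤ q → d ^ (1 - ε / 16) ≤ a → (a : ℝ) ≤ d → 1 ≤ r →
    r ≤ (1 + ε / 100) / (1 - ε / 4) →
    Bq η DS DR p d q ≤
      BB (η / 4) ((1 + ε / 100) * (DS * a / Q) * r) ((1 + ε / 100) * (DR * a / Q) * r) p a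

/-- HCL (the cells are hosts), from NHC of PT and NHB. -/
def StHCL : Prop :=
  ∀ ε η γ c : ℝ, 0 < ε → ε ≤ η / 8 → η ≤ 1 / 4 → 0 < γ → γ < 1 → 0 < c → c1 ε ≤ c → ∃ d₀ : ℝ,
    ∀ (V : Type) [Fintype V] [DecidableEq V] (S E : Finset (Sym2 V)) (U : Finset V)
      (DS DR p d : ℝ) (q l l' : ℕ), Par2 ε η γ (c / 4) d₀ DS DR p d q (Fintype.card V) →
      Pls ε d q → Loopless S → Loopless E → Disjoint S E → Codeg (S ∪ E) (Bq η DS DR p d q) →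
      (l' = l ∨ l' = l + 1 ∧ l < lv ε d) → l ≤ lv ε d →
      (∀ v, ((nb S U v).card : ℝ) ≤ (1 + ε / 100) * (DS * pl ε d q l / QQ ε d q)) →
      (∀ v, ((nb E U v).card : ℝ) ≤ (1 + ε / 100) * (DR * pl ε d q l / QQ ε d q)) →
      Host (η / 4) γ c (ins S U) (ins E U) U ((1 + ε / 100) * (DS * pl ε d q l / QQ ε d q))
        ((1 + ε / 100) * (DR * pl ε d q l / QQ ε d q)) p (pl ε d q l')

/-- CB2 (a typical slot map is good with high probability). -/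
def StCB2 : Prop :=
  ∀ η γ : ℝ, 0 < η → η ≤ 1 / 4 → 0 < γ → γ < 1 → ∃ c₂ : ℝ, 0 < c₂ ∧ ∀ ε : ℝ, 0 < ε → ε ≤ η / 8 →
    c1 ε ≤ c₂ → ∃ d₀ : ℝ, ∀ (V : Type) [Fintype V] [DecidableEq V] (S E : Finset (Sym2 V))
      (DS DR p d YS YE : ℝ) (q r M : ℕ) (pal : ℕ → ℕ) [∀ l, NeZero (pal l)]
      (x : V → Slot r M pal), r = rr ε d → M = lv ε d → pal = pl ε d q →
      Par2 ε η γ c₂ d₀ DS DR p d q (Fintype.card V) → Pls ε d q → Loopless S → Loopless E →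
      Disjoint S E → Codeg (S ∪ E) (Bq η DS DR p d q) → Typ S DS (ε / 100) (QQ ε d q) YS x →
      Typ E DR (ε / 100) (QQ ε d q) YE x →
      Pr p E (fun F => ¬ GoodSlot (S ∪ F) x (fun l => 5 * (d * pal l / QQ ε d q))
        (d ^ (-(c1 ε / 4))) (11 * d ^ (-c1 ε)) (hy S E p (d ^ (-c1 ε)) x)) ≤
        Real.exp (-d ^ (1 / 3 : ℝ))

/-- PR2 (one value of `q`). -/
def StPR2 : Prop :=
  ∀ η γ : ℝ, 0 < η → η ≤ 1 / 4 → 0 < γ → γ < 1 → ∃ ε c₂ d₀ : ℝ, 0 < ε ∧ ε ≤ 1 / 4 ∧ 0 < c₂ ∧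
    ∀ (V : Type) [Fintype V] [DecidableEq V] (S E : Finset (Sym2 V)) (DS DR p d : ℝ) (q : ℕ),
      Par2 ε η γ c₂ d₀ DS DR p d q (Fintype.card V) → Loopless S → Loopless E → Disjoint S E →
      Codeg (S ∪ E) (Bq η DS DR p d q) → (∀ v, ((nb S univ v).card : ℝ) ≤ DS) →
      (∀ v, ((nb E univ v).card : ℝ) ≤ DR) → 0 < E.card →
      Pr p E (fun F => (Nat.card {y : V → Fin q // Proper (S ∪ F) univ y} : ℝ) <
        Real.exp (-(ne S E p / q) - 50 * Fintype.card V / Real.log d) *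
          (q : ℝ) ^ Fintype.card V) ≤ 2 * Real.exp (-d ^ (1 / 3 : ℝ))

/-- The codegree bound for all admissible `q`:
`d^(1 - η/4 - X/max((1/2+η) d, X + η d))`, `X = DS + h(p) DR`. -/
noncomputable def Bs (η DS DR p d : ℝ) : ℝ :=
  d ^ (1 - η / 4 - (DS + hp p * DR) / max ((1 / 2 + η) * d) (DS + hp p * DR + η * d))

/-- BD2 (the bad random subsets).  New: `Bs ≤ Bq` for every `q` with `(1/2+η) d/L ≤ q` and `X + η d ≤ q L`. -/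
def StBD2 : Prop :=
  ∀ η γ : ℝ, 0 < η → η ≤ 1 / 4 → 0 < γ → γ < 1 → ∃ c d₀ : ℝ, 0 < c ∧ c ≤ 1 / 4 ∧
    ∀ (V : Type) [Fintype V] [DecidableEq V] (S E : Finset (Sym2 V)) (DS DR p d : ℝ),
      d = DS + p * DR → d₀ ≤ d → η * d ≤ DS → η * d ≤ p * DR → d ^ (-c) ≤ p → p ≤ 1 - γ →
      d ≤ Fintype.card V → Real.log (Fintype.card V) ≤ d ^ c → Loopless S → Loopless E →
      Disjoint S E → Codeg (S ∪ E) (Bs η DS DR p d) → (∀ v, ((nb S univ v).card : ℝ) ≤ DS) →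
      (∀ v, ((nb E univ v).card : ℝ) ≤ DR) → 0 < E.card →
      Pr p E (fun F => ¬ Gd2 η S E DS DR p d F) ≤ 1 / Real.log d

end Pool.Agent.Helper21.PV
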